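import Mathlib
import Pool.Graph.R_seed8.W684.FM.Ambient
import Pool.Graph.R_seed8.Helper292.ForceCH
import Pool.Graph.R_pool_sql_team_seeded_620a6dc7.Results.MP_670a4f_lc.BoundedChromatic
import Pool.Agent.H739.MASplit

/-!
# MP_670a4f_lc: triangle-free colourings of pairs of `ω₁` which omit only finitely many colours

* Some notion of forcing preserves `ω₁` and forces CH (forcing language of
  `Pool.Agent.Helper292.ForceCH`; `CHHolds P` is the set of the conditions which force the sentence
  `CHSentence`).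
* Some notion of forcing preserves all cardinals and forces Martin's axiom for `ℵ₁` dense sets (the
  forcing language is the one of `Pool.Agent.Helper669.Forcing`; `MartinHolds P Om1` is the set of
  the conditions which force the sentence `MartinFor Om1`, `Om1` the ordinal `ω₁`).
* These sentences are equivalent to the usual forms of CH and Martin's axiom for `ℵ₁` dense sets.
* Under CH there is a triangle-free colouring as asked in Q1, all of whose colour classes are
  bipartite.
* Under Martin's axiom for `ℵ₁` dense sets, for every colouring of the pairs of `ω₁` (triangle-free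
  or not) in which infinitely many colour classes have chromatic number at most some fixed `m`, there
  is an uncountable set which omits infinitely many colours.
-/

set_option autoImplicit false

namespace Pool.Agent.Results.MP_670a4f_lc.BoundedChromaticIndependent

open Cardinal Set Pool.Agent.W684 Pool.Agent.W684.FM
open Pool.Agent.Helper669.Forcing (CardinalsPreserved)
open Pool.Agent.Helper292.ForceCH (Om CHHolds)

/-- The countable ordinals. -/
abbrev W1 : Type 1 := {o : Ordinal.{0} // o < (Cardinal.aleph 1).ord}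

/-- There is no monochromatic triangle. -/
def TriangleFree (c : Sym2 W1 → ℕ) : Prop :=
  ∀ a b d : W1, a ≠ b → b ≠ d → a ≠ d → ¬ (c s(a, b) = c s(b, d) ∧ c s(b, d) = c s(a, d))

/-- The colours which do not occur on pairs of distinct elements of `X`. -/
def missing (c : Sym2 W1 → ℕ) (X : Set W1) : Set ℕ :=
  {n : ℕ | ¬ ∃ a ∈ X, ∃ b ∈ X, a ≠ b ∧ c s(a, b) = n}

/-- The graph of colour `k` has a proper vertex colouring with `m` colours. -/
def ClassColorable (c : Sym2 W1 → ℕ) (k m : ℕ) : Prop :=
  ∃ f : W1 → Fin m, ∀ a b : W1, a ≠ b → c s(a, b) = k → f a ≠ f b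

/-- The continuum hypothesis. -/
def CH : Prop := (2 : Cardinal.{0}) ^ ℵ₀ = ℵ₁

/-- Martin's axiom for `ℵ₁` dense sets: a nonempty preordered set with no uncountable antichain has,
for any family of at most `ℵ₁` dense subsets, a filter meeting all of them. -/
def MartinAlephOne : Prop :=
  ∀ (P : Type) (_ : Preorder P), Nonempty P →
    (∀ A : Set P, (∀ p ∈ A, ∀ q ∈ A, p ≠ q → ¬ ∃ r, r ≤ p ∧ r ≤ q) → A.Countable) →
    ∀ 𝒟 : Set (Set P), Cardinal.mk 𝒟 ≤ Cardinal.aleph 1 →
      (∀ D ∈ 𝒟, ∀ p, ∃ q ∈ D, q ≤ p) →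
      ∃ G : Set P, G.Nonempty ∧ (∀ p ∈ G, ∀ q, p ≤ q → q ∈ G) ∧
        (∀ p ∈ G, ∀ q ∈ G, ∃ r ∈ G, r ≤ p ∧ r ≤ q) ∧ ∀ D ∈ 𝒟, (D ∩ G).Nonempty

/-- The sentence which `CHHolds P` says is forced, evaluated in the universe: some family of
subsets of `ℕ` indexed by `ω₁` contains every subset of `ℕ`. -/
def CHSentence : Prop :=
  ∃ E : Om → ℕ → Prop, ∀ x : ℕ → Prop, ∃ a : Om, ∀ n : ℕ, x n ↔ E a n

theorem martin_iff : MartinFor Om1 ↔ MartinAlephOne := by
  have h0 : #Om1 = ℵ₁ := mk_ord_toType _
  rw [martinFor_iff, h0]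
  constructor
  · intro h P _ hn hc 𝒟 hD hd
    obtain ⟨G, h1, h2, h3, h4⟩ := h P (fun A hA => hc A hA) 𝒟 hD hd
    exact ⟨G, h1, h2, h3, fun D hD => by rw [Set.inter_comm]; exact h4 D hD⟩
  · intro h P _ _ hc 𝒟 hD hd
    obtain ⟨G, h1, h2, h3, h4⟩ := h P inferInstance inferInstance (fun A hA => hc A hA) 𝒟 hD hd
    exact ⟨G, h1, h2, h3, fun D hD => by rw [Set.inter_comm]; exact h4 D hD⟩

theorem ch_iff : CHSentence ↔ CH := by
  have h0 : #Om = ℵ₁ := mk_ord_toType _
  have h1 : #(Set ℕ) = 2 ^ ℵ₀ := by rw [mk_set, mk_nat]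
  constructor
  · rintro ⟨E, hE⟩
    refine le_antisymm ?_ ?_
    · rw [← h1, ← h0]
      refine mk_le_of_surjective (f := fun a : Om => {n | E a n}) fun x => ?_
      obtain ⟨a, ha⟩ := hE (fun n => n ∈ x)
      exact ⟨a, Set.ext fun n => (ha n).symm⟩
    · rw [← succ_aleph0]
      exact Order.succ_le_of_lt (cantor _)
  · intro h
    have h2 : #(Set ℕ) = #Om := by rw [h1, h0]; exact h
    obtain ⟨e⟩ := Cardinal.eq.1 h2
    refine ⟨fun a n => n ∈ e.symm a, fun x => ⟨e {n | x n}, fun n => ?_⟩⟩
    simp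

/-- **The positive answer to Q1 is consistent; for colourings with classes of bounded chromatic
number (for instance bipartite classes) the question is independent of ZFC.** -/
theorem result :
    (∃ (P : Type) (_ : Preorder P), Nonempty P ∧ ∀ p : P,
      p ∈ Pool.Agent.Helper292.ForceCH.OmegaOnePreserved P ∧ p ∈ CHHolds P) ∧
    (∃ (P : Type) (_ : Preorder P), Nonempty P ∧ ∀ p : P,
      p ∈ CardinalsPreserved.{0, 0} P ∧ p ∈ Pool.Agent.W684.FM.OmegaOnePreserved P ∧
        p ∈ MartinHolds P Om1) ∧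
    (CHSentence ↔ CH) ∧ (MartinFor Om1 ↔ MartinAlephOne) ∧
    (CH → ∃ c : Sym2 W1 → ℕ, TriangleFree c ∧ (∀ k, ClassColorable c k 2) ∧
      ∀ X : Set W1, ¬ X.Countable → (missing c X).Finite) ∧
    (MartinAlephOne → ∀ (c : Sym2 W1 → ℕ) (m : ℕ), {k | ClassColorable c k m}.Infinite →
      ∃ X : Set W1, ¬ X.Countable ∧ (missing c X).Infinite) := by
  have : Infinite Om1 := by
    rw [Cardinal.infinite_iff, Cardinal.mk_ord_toType]
    exact Cardinal.aleph0_le_aleph _
  refine ⟨?_, exists_forcing Om1, ch_iff, martin_iff, ?_, ?_⟩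
  · obtain ⟨P, i, hn, h⟩ := Pool.Agent.Helper292.ForceCH.exists_forcing
    exact ⟨P, i, hn, fun p => ⟨(h p).1, (h p).2.2⟩⟩
  · intro h
    refine BoundedChromatic.result.1 (BoundedChromatic.result.2.1 ?_)
    rw [← two_power_aleph0]
    exact h
  · intro h c m hm
    exact BoundedChromatic.result.2.2.2
      (fun S hS => Pool.Agent.H739.MASplit.no_small_splitting h S hS) c m hm

end Pool.Agent.Results.MP_670a4f_lc.BoundedChromaticIndependent
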